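import Pool.Agent.helper60.XP.SpecT

/-!
# Project xp: part INVL, inverse of a map near the identity on a ball
-/

set_option autoImplicit false

open Complex Metric Set Filter Topology MeasureTheory
open V3S (UF)
open XP

noncomputable section

namespace XPT

theorem INVL : INVL_stmt := by
  intro G x₀ ρ ε hρ hε0 hε hG hn
  -- derivative of `h = G - id`
  have hdiff : ∀ y ∈ ball x₀ (2 * ρ), DifferentiableAt ℂ G y := fun y hy =>
    (hG y hy).differentiableAt (isOpen_ball.mem_nhds hy)
  have hsub : ball x₀ (3 * ρ / 2) ⊆ ball x₀ (2 * ρ) := ball_subset_ball (by linarith)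
  have hhd : ∀ y ∈ ball x₀ (2 * ρ), DifferentiableAt ℂ (fun y => G y - y) y := fun y hy =>
    (hdiff y hy).sub differentiableAt_id
  have hcau : ∀ y ∈ ball x₀ (3 * ρ / 2), ‖deriv (fun y => G y - y) y‖ ≤ 1 / 2 := by
    intro y hy
    have hcl : ∀ z ∈ closedBall y (ρ / 2), z ∈ ball x₀ (2 * ρ) := by
      intro z hz
      rw [mem_closedBall] at hz
      rw [mem_ball] at hy ⊢
      have := dist_triangle z y x₀
      linarith
    have h1 : ‖deriv (fun y => G y - y) y‖ ≤ ε / (ρ / 2) := by
      apply Complex.norm_deriv_le_of_forall_mem_sphere_norm_le (by positivity)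
      · apply DifferentiableOn.diffContOnCl
        rw [closure_ball y (by positivity : (ρ / 2) ≠ 0)]
        intro z hz
        exact (hhd z (hcl z hz)).differentiableWithinAt
      · intro z hz
        exact hn z (hcl z (sphere_subset_closedBall hz))
    refine h1.trans ?_
    rw [div_le_iff₀ (by positivity)]
    linarith
  have hlip : ∀ y ∈ ball x₀ (3 * ρ / 2), ∀ z ∈ ball x₀ (3 * ρ / 2),
      ‖(G z - z) - (G y - y)‖ ≤ 1 / 2 * ‖z - y‖ := by
    intro y hy z hz
    exact Convex.norm_image_sub_le_of_norm_deriv_le (f := fun y => G y - y)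
      (fun w hw => hhd w (hsub hw)) hcau (convex_ball _ _) hy hz
  -- the fixed point
  have hfix : ∀ x ∈ ball x₀ ρ, ∃ y, y ∈ ball x₀ (3 * ρ / 2) ∧ G y = x ∧ ‖y - x‖ ≤ ε := by
    intro x hx
    have hcb : ∀ z ∈ closedBall x ε, z ∈ ball x₀ (3 * ρ / 2) := by
      intro z hz
      rw [mem_closedBall] at hz
      rw [mem_ball] at hx ⊢
      have := dist_triangle z x x₀
      linarith
    have hmaps : MapsTo (fun y => x - (G y - y)) (closedBall x ε) (closedBall x ε) := by
      intro y hy
      rw [mem_closedBall, dist_eq_norm]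
      have h1 := hn y (hsub (hcb y hy))
      have h2 : x - (G y - y) - x = -(G y - y) := by ring
      rw [h2, norm_neg]
      exact h1
    have hcon : ContractingWith (1 / 2 : NNReal) (hmaps.restrict _ _ _) := by
      constructor
      · norm_num
      · apply LipschitzWith.of_dist_le_mul
        intro a b
        have h1 := hlip b.1 (hcb _ b.2) a.1 (hcb _ a.2)
        have h2 : dist (hmaps.restrict _ _ _ a) (hmaps.restrict _ _ _ b) =
            ‖(x - (G a.1 - a.1)) - (x - (G b.1 - b.1))‖ := by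
          rw [← dist_eq_norm]; rfl
        rw [h2]
        have h3 : (x - (G a.1 - a.1)) - (x - (G b.1 - b.1)) = -((G a.1 - a.1) - (G b.1 - b.1)) := by
          ring
        rw [h3, norm_neg]
        have h4 : dist a b = ‖a.1 - b.1‖ := by rw [← dist_eq_norm]; rfl
        rw [h4]
        have h5 : ((1 / 2 : NNReal) : ℝ) = 1 / 2 := by norm_num
        rw [h5]
        exact h1
    obtain ⟨y, hy, hfy, -⟩ := ContractingWith.exists_fixedPoint' (isClosed_closedBall.isComplete)
      hmaps hcon (mem_closedBall_self hε0) (edist_ne_top _ _)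
    refine ⟨y, hcb y hy, ?_, ?_⟩
    · have h1 : x - (G y - y) = y := hfy
      linear_combination -h1
    · rw [mem_closedBall, dist_eq_norm] at hy
      exact hy
  choose! Ψ hΨ using hfix
  have hLip : ∀ x ∈ ball x₀ ρ, ∀ x' ∈ ball x₀ ρ, ‖Ψ x' - Ψ x‖ ≤ 2 * ‖x' - x‖ := by
    intro x hx x' hx'
    obtain ⟨h1, h2, h3⟩ := hΨ x hx
    obtain ⟨h1', h2', h3'⟩ := hΨ x' hx'
    have h4 := hlip _ h1 _ h1'
    rw [h2, h2'] at h4
    have h5 : Ψ x' - Ψ x = (x' - x) - ((x' - Ψ x') - (x - Ψ x)) := by ring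
    have h6 : ‖Ψ x' - Ψ x‖ ≤ ‖x' - x‖ + ‖(x' - Ψ x') - (x - Ψ x)‖ := by
      conv_lhs => rw [h5]
      exact norm_sub_le _ _
    linarith
  refine ⟨Ψ, ?_, hΨ⟩
  intro x hx
  apply DifferentiableAt.differentiableWithinAt
  obtain ⟨h1, h2, h3⟩ := hΨ x hx
  have hG' : HasDerivAt G (deriv G (Ψ x)) (Ψ x) := (hdiff _ (hsub h1)).hasDerivAt
  have hne : deriv G (Ψ x) ≠ 0 := by
    intro h0
    have h4 : deriv (fun y => G y - y) (Ψ x) = -1 := by
      have := (hG'.sub (hasDerivAt_id (Ψ x))).deriv
      rw [h0] at this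
      have h5 : deriv (G - id) (Ψ x) = 0 - 1 := this
      have h6 : (fun y => G y - y) = G - id := rfl
      rw [h6, h5]; ring
    have h7 := hcau _ h1
    rw [h4, norm_neg, norm_one] at h7
    norm_num at h7
  have hcont : ContinuousAt Ψ x := by
    rw [Metric.continuousAt_iff]
    intro e he
    obtain ⟨d, hd, hd'⟩ := Metric.mem_nhds_iff.1 (isOpen_ball.mem_nhds hx)
    refine ⟨min d (e / 2), by positivity, ?_⟩
    intro x' hx'
    have h5 : x' ∈ ball x₀ ρ := hd' (by rw [mem_ball]; exact hx'.trans_le (min_le_left _ _))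
    have h6 := hLip x hx x' h5
    rw [dist_eq_norm] at hx' ⊢
    have h7 := hx'.trans_le (min_le_right _ _)
    linarith
  have hloc : ∀ᶠ y in 𝓝 x, G (Ψ y) = y := by
    filter_upwards [isOpen_ball.mem_nhds hx] with y hy
    exact (hΨ y hy).2.1
  exact (HasDerivAt.of_local_left_inverse hcont hG' hne hloc).differentiableAt

end XPT
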