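import Pool.Agent.helper54.XP.SpecL

/-!
# Project xp: REG: topology of the regular set
-/

set_option autoImplicit false

open Complex Metric Set Filter Topology MeasureTheory XP
open V3S (UF)

noncomputable section

namespace XPL

theorem REG : REG_stmt := by
  intro n C D _ hL
  have key2 : ∀ x : ℂ, ∃ ε > (0 : ℝ), ∀ y ∈ ball x ε, y ≠ x → y ∈ Reg D := by
    intro x
    have h1 := hL.acc x
    rw [eventually_nhdsWithin_iff, Metric.eventually_nhds_iff_ball] at h1
    obtain ⟨ε, hε, h⟩ := h1
    exact ⟨ε, hε, fun y hy hne => h y hy hne⟩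
  refine ⟨?_, ?_, key2⟩
  · rw [Metric.isOpen_iff]
    intro x hx
    obtain ⟨ε, hε, h⟩ := key2 x
    refine ⟨ε, hε, fun y hy => ?_⟩
    by_cases hyx : y = x
    · rw [hyx]; exact hx
    · exact h y hy hyx
  · choose ε hε hreg using key2
    have hcov := TopologicalSpace.countable_cover_nhds (f := fun x : ℂ => ball x (ε x))
      (fun x => ball_mem_nhds x (hε x))
    obtain ⟨s, hs, hcov⟩ := hcov
    have hsub : (Reg D)ᶜ ⊆ s := by
      intro y hy
      have hy1 : y ∈ ⋃ x ∈ s, ball x (ε x) := by rw [hcov]; trivial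
      simp only [mem_iUnion] at hy1
      obtain ⟨x, hxs, hyx⟩ := hy1
      by_cases hne : y = x
      · rw [hne]; exact hxs
      · exact absurd (hreg x y hyx hne) hy
    have hcnt : ((Reg D)ᶜ).Countable := hs.mono hsub
    have hrk : 1 < Module.rank ℝ ℂ := by
      rw [Complex.rank_real_complex]
      exact Nat.one_lt_ofNat
    have hconn := hcnt.isConnected_compl_of_one_lt_rank hrk
    rw [compl_compl] at hconn
    exact hconn.isPreconnected

end XPL
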